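import Mathlib

set_option autoImplicit false

/-!
# Families of more than `κ` partial functions of size less than `κ`
-/

universe u

namespace Pool.Agent.W905.SM

open Cardinal Set

/-- bounded sets of size less than the cofinality -/
theorem exists_bound {c : Cardinal.{u}} {s : Set c.ord.ToType} (hs : #s < c.ord.cof) :
    ∃ b, ∀ i ∈ s, i < b := by
  apply not_isCofinal_iff.1
  intro h
  have h1 := Order.cof_le h
  rw [Ordinal.cof_toType] at h1
  exact absurd hs (not_lt.2 h1)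

theorem mk_Iio_lt' {c : Cardinal.{u}} (i : c.ord.ToType) : #(Iio i) < c := by
  have h := Cardinal.mk_Iio_lt i (by simp)
  rwa [mk_ord_toType] at h

theorem mul_le' {κ a b : Cardinal.{u}} (hκ : ℵ₀ ≤ κ) (ha : a ≤ κ) (hb : b ≤ κ) : a * b ≤ κ :=
  (mul_le_mul' ha hb).trans (Cardinal.mul_eq_self hκ).le

theorem iUnion_le {ι α : Type u} {κ : Cardinal.{u}} (hκ : ℵ₀ ≤ κ) (hι : #ι ≤ κ)
    (f : ι → Set α) (hf : ∀ i, #(f i) ≤ κ) : #(⋃ i, f i) ≤ κ := by
  refine (Cardinal.mk_iUnion_le f).trans ?_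
  exact mul_le' hκ hι (ciSup_le' hf)

theorem biUnion_le {ι α : Type u} {κ : Cardinal.{u}} (hκ : ℵ₀ ≤ κ) (s : Set ι) (hs : #s ≤ κ)
    (f : ι → Set α) (hf : ∀ i ∈ s, #(f i) ≤ κ) : #(⋃ i ∈ s, f i) ≤ κ := by
  rw [biUnion_eq_iUnion]
  exact iUnion_le hκ hs _ fun i => hf i.1 i.2

theorem union_le {α : Type u} {κ : Cardinal.{u}} (hκ : ℵ₀ ≤ κ) {s t : Set α}
    (hs : #s ≤ κ) (ht : #t ≤ κ) : #(s ∪ t : Set α) ≤ κ := by
  refine (Cardinal.mk_union_le s t).trans ?_
  exact (add_le_add hs ht).trans (Cardinal.add_eq_self hκ).le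

theorem union_lt {α : Type u} {κ : Cardinal.{u}} (hκ : ℵ₀ ≤ κ) {s t : Set α}
    (hs : #s < κ) (ht : #t < κ) : #(s ∪ t : Set α) < κ :=
  (Cardinal.mk_union_le s t).trans_lt (Cardinal.add_lt_of_lt hκ hs ht)

theorem finite_lt {α : Type u} {κ : Cardinal.{u}} (hκ : ℵ₀ ≤ κ) {s : Set α} (hs : s.Finite) :
    #s < κ := hs.lt_aleph0.trans_le hκ

/-- There are at most `κ` subsets of size less than `κ` of a set of size `κ`. -/
theorem count {κ : Cardinal.{u}} (hκ : κ.IsRegular) (hpow : ∀ μ < κ, 2 ^ μ ≤ κ) {E : Type u}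
    (hE : #E ≤ κ) : #{G : Set E // #G < κ} ≤ κ := by
  classical
  have hE' : #E ≤ #κ.ord.ToType := by rwa [mk_ord_toType]
  obtain ⟨e⟩ := hE'
  have hb : ∀ G : {G : Set E // #G < κ}, ∃ b : κ.ord.ToType, ∀ i ∈ e '' G.1, i < b := by
    intro G
    apply exists_bound
    rw [hκ.cof_ord]
    exact (mk_image_le).trans_lt G.2
  choose b hb using hb
  let F : {G : Set E // #G < κ} → Σ b : κ.ord.ToType, Set (Iio b) := fun G =>
    ⟨b G, {i | i.1 ∈ e '' G.1}⟩
  have hF : Function.Injective F := by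
    intro G G' h
    apply Subtype.ext
    have key : ∀ G : {G : Set E // #G < κ}, e '' G.1 = Subtype.val '' (F G).2 := by
      intro G
      ext i
      constructor
      · intro hi
        exact ⟨⟨i, hb G i hi⟩, hi, rfl⟩
      · rintro ⟨j, hj, rfl⟩
        exact hj
    have h2 : e '' G.1 = e '' G'.1 := by rw [key, key, h]
    exact e.injective.image_injective h2
  refine (mk_le_of_injective hF).trans ?_
  rw [mk_sigma]
  refine (Cardinal.sum_le_sum _ (fun _ => κ) fun i => ?_).trans ?_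
  · rw [Cardinal.mk_set]
    exact hpow _ (mk_Iio_lt' i)
  · rw [Cardinal.sum_const']
    rw [mk_ord_toType]
    exact (Cardinal.mul_eq_self hκ.aleph0_le).le

section

variable {κ : Cardinal.{u}} {K W B Z : Type u}

/-- the union of the domains -/
def dom (D : K → Set W) (A : Set K) : Set W := ⋃ i ∈ A, D i

/-- the pattern `(G, z)` is realized by `j` -/
def Real (D : K → Set W) (s : K → W → B) (z : K → Z) (x : K → W) (G : Set (W × B)) (c : Z)
    (j : K) : Prop :=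
  z j = c ∧ (∀ e ∈ G, e.1 ∈ D j ∧ s j e.1 = e.2) ∧ x j ∉ Prod.fst '' G

open Classical in
/-- choose a realization -/
noncomputable def pick [Nonempty K] (D : K → Set W) (s : K → W → B) (z : K → Z) (x : K → W)
    (G : Set (W × B)) (c : Z) : K :=
  if h : ∃ j, Real D s z x G c j then h.choose else Classical.arbitrary K

/-- one step of the closure -/
def step [Nonempty K] (κ : Cardinal.{u}) (D : K → Set W) (s : K → W → B) (z : K → Z) (x : K → W)
    (A : Set K) : Set K :=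
  A ∪ {j | ∃ G : Set (W × B), #G < κ ∧ (∀ e ∈ G, e.1 ∈ dom D A) ∧ ∃ c, j = pick D s z x G c}

theorem step_le [Nonempty K] (hκ : κ.IsRegular) (hpow : ∀ μ < κ, 2 ^ μ ≤ κ) (hB : #B ≤ κ)
    (hZ : #Z ≤ κ) (D : K → Set W) (hD : ∀ i, #(D i) < κ) (s : K → W → B) (z : K → Z) (x : K → W)
    {A : Set K} (hA : #A ≤ κ) : #(step κ D s z x A) ≤ κ := by
  refine union_le hκ.aleph0_le hA ?_
  have h1 : #(dom D A × B) ≤ κ := by
    rw [mk_prod, lift_id, lift_id]
    exact mul_le' hκ.aleph0_le (biUnion_le hκ.aleph0_le A hA D fun i _ => (hD i).le) hB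
  let f : {G : Set (dom D A × B) // #G < κ} × Z → K := fun q =>
    pick D s z x ((fun e : dom D A × B => (e.1.1, e.2)) '' q.1.1) q.2
  have h2 : {j | ∃ G : Set (W × B), #G < κ ∧ (∀ e ∈ G, e.1 ∈ dom D A) ∧
      ∃ c, j = pick D s z x G c} ⊆ range f := by
    rintro j ⟨G, hG1, hG2, c, rfl⟩
    have hinj : Function.Injective (fun e : dom D A × B => ((e.1.1, e.2) : W × B)) := by
      rintro ⟨⟨a, _⟩, b⟩ ⟨⟨a', _⟩, b'⟩ h
      simp only [Prod.mk.injEq] at h
      obtain ⟨rfl, rfl⟩ := h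
      rfl
    refine ⟨⟨⟨(fun e : dom D A × B => ((e.1.1, e.2) : W × B)) ⁻¹' G, ?_⟩, c⟩, ?_⟩
    · refine (mk_preimage_of_injective _ _ hinj).trans_lt hG1
    · show pick D s z x (_ '' (_ ⁻¹' G)) c = _
      congr 1
      rw [image_preimage_eq_iff]
      intro e he
      exact ⟨⟨⟨e.1, hG2 e he⟩, e.2⟩, rfl⟩
  refine (mk_le_mk_of_subset h2).trans (mk_range_le.trans ?_)
  rw [mk_prod, lift_id, lift_id]
  exact mul_le' hκ.aleph0_le (count hκ hpow h1) hZ

/-- the closure process -/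
noncomputable def clos [Nonempty K] (κ : Cardinal.{u}) (D : K → Set W) (s : K → W → B) (z : K → Z)
    (x : K → W) : κ.ord.ToType → Set K :=
  (wellFounded_lt (α := κ.ord.ToType)).fix fun ζ rec =>
    ⋃ η : κ.ord.ToType, ⋃ h : η < ζ, step κ D s z x (rec η h)

theorem clos_eq [Nonempty K] (D : K → Set W) (s : K → W → B) (z : K → Z)
    (x : K → W) (ζ : κ.ord.ToType) : clos κ D s z x ζ =
      ⋃ η : κ.ord.ToType, ⋃ _ : η < ζ, step κ D s z x (clos κ D s z x η) := by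
  unfold clos
  rw [WellFounded.fix_eq]

theorem clos_le [Nonempty K] (hκ : κ.IsRegular) (hpow : ∀ μ < κ, 2 ^ μ ≤ κ) (hB : #B ≤ κ)
    (hZ : #Z ≤ κ) (D : K → Set W) (hD : ∀ i, #(D i) < κ) (s : K → W → B) (z : K → Z)
    (x : K → W) (ζ : κ.ord.ToType) : #(clos κ D s z x ζ) ≤ κ := by
  induction ζ using (wellFounded_lt (α := κ.ord.ToType)).induction with
  | h ζ ih =>
  rw [clos_eq]
  refine biUnion_le (ι := κ.ord.ToType) hκ.aleph0_le (Iio ζ) ?_ _ fun η hη => ?_
  · exact (mk_Iio_lt' ζ).le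
  · exact step_le hκ hpow hB hZ D hD s z x (ih η hη)

theorem clos_step [Nonempty K] (D : K → Set W) (s : K → W → B) (z : K → Z)
    (x : K → W) {ζ ξ : κ.ord.ToType} (h : ζ < ξ) :
    step κ D s z x (clos κ D s z x ζ) ⊆ clos κ D s z x ξ := by
  conv_rhs => rw [clos_eq]
  exact subset_iUnion₂_of_subset ζ h subset_rfl

theorem clos_mono [Nonempty K] (D : K → Set W) (s : K → W → B) (z : K → Z)
    (x : K → W) {ζ ξ : κ.ord.ToType} (h : ζ ≤ ξ) :
    clos κ D s z x ζ ⊆ clos κ D s z x ξ := by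
  rcases h.eq_or_lt with rfl | h
  · exact subset_rfl
  · exact subset_union_left.trans (clos_step D s z x h)

/-- Among more than `κ` partial functions of size less than `κ` there are two which agree on the
common part of their domains, with the same `z`, and such that the marked point of each one of
them is outside the domain of the other. -/
theorem exists_pair (hκ : κ.IsRegular) (hpow : ∀ μ < κ, 2 ^ μ ≤ κ) (hB : #B ≤ κ)
    (hZ : #Z ≤ κ) (hK : κ < #K) (D : K → Set W) (hD : ∀ i, #(D i) < κ) (s : K → W → B)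
    (z : K → Z) (x : K → W) (hx : ∀ i, x i ∈ D i) (hfib : ∀ w, #{i | x i = w} ≤ κ) :
    ∃ i j, i ≠ j ∧ z i = z j ∧ (∀ w ∈ D i, w ∈ D j → s i w = s j w) ∧ x i ∉ D j ∧ x j ∉ D i := by
  have hK0 : #K ≠ 0 := (bot_lt_iff_ne_bot (a := #K)).1 (lt_of_le_of_lt bot_le hK)
  have : Nonempty K := mk_ne_zero_iff.1 hK0
  have h0 := hκ.aleph0_le
  set J : Set K := ⋃ ζ, clos κ D s z x ζ with hJ
  have hJκ : #J ≤ κ := iUnion_le h0 (by rw [mk_ord_toType]) _ fun ζ =>
    clos_le hκ hpow hB hZ D hD s z x ζ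
  have hDJ : #(dom D J) ≤ κ := biUnion_le h0 J hJκ D fun i _ => (hD i).le
  have hbad : #(J ∪ ⋃ w ∈ dom D J, {i | x i = w} : Set K) ≤ κ :=
    union_le h0 hJκ (biUnion_le h0 _ hDJ _ fun w _ => hfib w)
  have hex : ∃ i, i ∉ (J ∪ ⋃ w ∈ dom D J, {i | x i = w} : Set K) := by
    by_contra hcon
    push Not at hcon
    have : (J ∪ ⋃ w ∈ dom D J, {i | x i = w} : Set K) = Set.univ := eq_univ_of_forall hcon
    rw [this, mk_univ] at hbad
    exact absurd hK (not_lt.2 hbad)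
  obtain ⟨i, hi⟩ := hex
  rw [mem_union, not_or] at hi
  obtain ⟨hiJ, hi2⟩ := hi
  have hxi : x i ∉ dom D J := by
    intro h
    apply hi2
    simp only [mem_iUnion, mem_ofPred_eq]
    exact ⟨x i, h, rfl⟩
  let G : Set (W × B) := (fun w => (w, s i w)) '' (D i ∩ dom D J)
  have hG : #G < κ := mk_image_le.trans_lt ((mk_le_mk_of_subset inter_subset_left).trans_lt (hD i))
  have hstage : ∃ ζ, ∀ e ∈ G, e.1 ∈ dom D (clos κ D s z x ζ) := by
    have h1 : ∀ e : G, ∃ ζ, e.1.1 ∈ dom D (clos κ D s z x ζ) := by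
      rintro ⟨e, he⟩
      obtain ⟨w, ⟨_, hw⟩, rfl⟩ := he
      simp only [dom, hJ, mem_iUnion, exists_prop] at hw
      obtain ⟨j, ⟨ζ, hζ⟩, hj⟩ := hw
      exact ⟨ζ, by simp only [dom, mem_iUnion, exists_prop]; exact ⟨j, hζ, hj⟩⟩
    choose ζ hζ using h1
    obtain ⟨b, hb⟩ := exists_bound (c := κ) (s := range ζ) (by
      rw [hκ.cof_ord]
      exact mk_range_le.trans_lt hG)
    refine ⟨b, fun e he => ?_⟩
    have h2 := hζ ⟨e, he⟩
    simp only [dom, mem_iUnion, exists_prop] at h2 ⊢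
    obtain ⟨j, hj1, hj2⟩ := h2
    exact ⟨j, clos_mono D s z x (hb _ ⟨⟨e, he⟩, rfl⟩).le hj1, hj2⟩
  obtain ⟨ζ, hζ⟩ := hstage
  have hreal : Real D s z x G (z i) i := by
    refine ⟨rfl, ?_, ?_⟩
    · rintro _ ⟨w, hw, rfl⟩
      exact ⟨hw.1, rfl⟩
    · rintro ⟨_, ⟨w, hw, rfl⟩, h⟩
      apply hxi
      rw [← h]
      exact hw.2
  have hpick : Real D s z x G (z i) (pick D s z x G (z i)) := by
    unfold pick
    have h : ∃ j, Real D s z x G (z i) j := ⟨i, hreal⟩
    rw [dif_pos h]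
    exact h.choose_spec
  set j := pick D s z x G (z i) with hj
  have hjJ : j ∈ J := by
    have h1 : j ∈ step κ D s z x (clos κ D s z x ζ) := Or.inr ⟨G, hG, hζ, z i, rfl⟩
    obtain ⟨ξ, hξ⟩ := exists_bound (c := κ) (s := {ζ}) (by
      rw [hκ.cof_ord]
      exact finite_lt h0 (finite_singleton _))
    rw [hJ, mem_iUnion]
    exact ⟨ξ, clos_step D s z x (hξ ζ rfl) h1⟩
  have hDj : D j ⊆ dom D J := subset_biUnion_of_mem (u := D) hjJ
  refine ⟨i, j, fun h => hiJ (h ▸ hjJ), hpick.1.symm, fun w h1 h2 => ?_, fun h => hxi (hDj h),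
    fun h => ?_⟩
  · exact (hpick.2.1 (w, s i w) ⟨w, ⟨h1, hDj h2⟩, rfl⟩).2.symm
  · exact hpick.2.2 ⟨_, ⟨x j, ⟨h, hDj (hx j)⟩, rfl⟩, rfl⟩

/-- the version without marked points -/
theorem exists_pair' (hκ : κ.IsRegular) (hpow : ∀ μ < κ, 2 ^ μ ≤ κ) (hB : #B ≤ κ)
    (hK : κ < #K) (D : K → Set W) (hD : ∀ i, #(D i) < κ) (s : K → W → B) :
    ∃ i j, i ≠ j ∧ ∀ w ∈ D i, w ∈ D j → s i w = s j w := by
  classical
  have hK0 : #K ≠ 0 := (bot_lt_iff_ne_bot (a := #K)).1 (lt_of_le_of_lt bot_le hK)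
  have : Nonempty K := mk_ne_zero_iff.1 hK0
  have h0 := hκ.aleph0_le
  let D' : K → Set (W ⊕ K) := fun i => Sum.inl '' D i ∪ {Sum.inr i}
  by_cases hBe : Nonempty B
  · obtain ⟨b⟩ := hBe
    obtain ⟨i, j, hij, _, h, _⟩ := exists_pair (κ := κ) (Z := PUnit) hκ hpow hB
      (by rw [mk_punit]; exact one_le_aleph0.trans h0) hK D'
      (fun i => union_lt h0 (mk_image_le.trans_lt (hD i)) (finite_lt h0 (finite_singleton _)))
      (fun i w => Sum.elim (s i) (fun _ => b) w) (fun _ => PUnit.unit) (fun i => Sum.inr i)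
      (fun i => Or.inr rfl) (fun w => by
        refine (finite_lt h0 (Set.Subsingleton.finite ?_)).le
        intro i hi j hj
        simp only [mem_ofPred_eq] at hi hj
        exact Sum.inr_injective (hi.trans hj.symm))
    refine ⟨i, j, hij, fun w h1 h2 => ?_⟩
    exact h (Sum.inl w) (Or.inl ⟨w, h1, rfl⟩) (Or.inl ⟨w, h2, rfl⟩)
  · rw [not_nonempty_iff] at hBe
    by_cases hW : Nonempty W
    · obtain ⟨w⟩ := hW
      exact (hBe.false (s (Classical.arbitrary K) w)).elim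
    · rw [not_nonempty_iff] at hW
      have h2 : (1 : Cardinal) < #K := (one_lt_aleph0.trans_le h0).trans hK
      obtain ⟨i, j, hij⟩ := (one_lt_iff_nontrivial.1 h2).exists_pair_ne
      exact ⟨i, j, hij, fun w => hW.elim w⟩

end

end Pool.Agent.W905.SM
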