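import Mathlib
import Pool.Agent.Helper669.Forcing
import Pool.Agent.Helper669.Forcing2

set_option autoImplicit false

/-!
# Set mappings in the generic extension
-/

universe u v w

namespace Pool.Agent.W905.SM

open Cardinal Pool.Agent.Helper669.Forcing

/-- The forcing notion which adds subsets of `κ` indexed by `Λ`: a condition is a partial function
from `Λ × κ` to `{0, 1}` whose domain has size less than `κ`. -/
structure AddForcing (κ : Cardinal.{u}) (Λ : Type u) where
  /-- the partial function -/
  val : Λ → κ.ord.ToType → Option Bool
  small : #{e : Λ × κ.ord.ToType | val e.1 e.2 ≠ none} < κ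

/-- `q ≤ p` if `q` extends `p`. -/
instance (κ : Cardinal.{u}) (Λ : Type u) : Preorder (AddForcing κ Λ) where
  le q p := ∀ w ξ b, p.val w ξ = some b → q.val w ξ = some b
  le_refl _ _ _ _ h := h
  le_trans _ _ _ h h' w ξ b hb := h w ξ b (h' w ξ b hb)

section

variable {P : Type u} [Preorder P]

/-- In the extension the set of all `x` with `φ x` has at least `|Y|` elements: some injective
function on `Y` only takes values `x` with `φ x`. -/
def SizeGe {X : Type v} (φ : X → Set P) (Y : Type w) : Set P :=
  fex fun R : Y → X → Set P => fand (IsFun R) (fand (IsInj R)
    (fall fun y => fall fun x => fimp (meets (R y x)) (φ x)))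

/-- In the extension the set of all `x` with `φ x` has fewer than `|Y|` elements. -/
def SizeLt {X : Type v} (φ : X → Set P) (Y : Type w) : Set P := fnot (SizeGe φ Y)

/-- In the extension the set of all `x` with `φ x` has size `|Y|`: it is the range of an injective
function on `Y`. -/
def SizeIs {X : Type v} (φ : X → Set P) (Y : Type w) : Set P :=
  fex fun R : Y → X → Set P => fand (IsFun R) (fand (IsInj R)
    (fand (fall fun y => fall fun x => fimp (meets (R y x)) (φ x))
      (fall fun x => fimp (φ x) (fex fun y => meets (R y x)))))

/-- The name `f` of a set of pairs is read as the name of the function which sends `x` to the set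
of all `y` such that `(x, y)` belongs to it. It is a set mapping: `x` is not in `f x`. -/
def SetMapping {X : Type v} (f : X → X → Set P) : Set P := fall fun x => fnot (meets (f x x))

/-- The set named by `H` is free for `f`: `y` is not in `f x` for all distinct `x`, `y` in it. -/
def Free {X : Type v} (f : X → X → Set P) (H : X → Set P) : Set P :=
  fall fun x => fall fun y => fall fun _ : x ≠ y =>
    fimp (fand (meets (H x)) (meets (H y))) (fnot (meets (f x y)))

/-- `y` belongs to `f x` for all `x` in the set named by `A`. -/
def InAll {X : Type v} (f : X → X → Set P) (A : X → Set P) (y : X) : Set P :=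
  fall fun x => fimp (meets (A x)) (meets (f x y))

/-- The relation `(κ, η, θ) → ι` in the extension: let `f` be a set mapping on `κ` with
`|f x| < κ` for all `x`, such that fewer than `θ` points belong to `f x` for all `x ∈ A`, whenever
`A ⊆ κ` has size `η`; then there is a set of size `ι` which is free for `f`. -/
def Arrow (P : Type u) [Preorder P] (κ η θ ι : Cardinal.{v}) : Set P :=
  fall fun f : κ.ord.ToType → κ.ord.ToType → Set P =>
    fimp
      (fand (SetMapping f)
        (fand (fall fun x => SizeLt (fun y => meets (f x y)) κ.ord.ToType)
          (fall fun A : κ.ord.ToType → Set P =>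
            fimp (SizeIs (fun x => meets (A x)) η.ord.ToType)
              (SizeLt (InAll f A) θ.ord.ToType))))
      (fex fun H : κ.ord.ToType → Set P =>
        fand (SizeIs (fun x => meets (H x)) ι.ord.ToType) (Free f H))

end

end Pool.Agent.W905.SM
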