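import Mathlib
import Pool.Agent.W905.SM.Defs
import Pool.Agent.W905.SM.Comb

set_option autoImplicit false

/-!
# Adding subsets of `κ` with conditions of size less than `κ`
-/

universe u v w

namespace Pool.Agent.W905.SM

open Cardinal Set Pool.Agent.Helper669.Forcing Pool.Agent.Helper669.Forcing2
  Pool.Agent.Helper669.GBase

section general

variable {P : Type u} [Preorder P]

/-- A `κ`-closed forcing notion is `κ`-distributive. -/
theorem distrib {κ : Cardinal.{u}} (hκ : ℵ₀ ≤ κ)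
    (hclosed : ∀ S : Set P, (∀ s ∈ S, ∀ t ∈ S, s ≤ t ∨ t ≤ s) → #S < κ → S.Nonempty →
      ∃ t, ∀ s ∈ S, t ≤ s)
    {I : Type u} (hI : #I < κ) (D : I → Set P) (hdown : ∀ i, Down (D i))
    (hdense : ∀ i p, ∃ q ≤ p, q ∈ D i) (p : P) : ∃ q ≤ p, ∀ i, q ∈ D i := by
  classical
  rcases hκ.eq_or_lt with h | h
  · rw [← h] at hI
    have : Finite I := lt_aleph0_iff_finite.1 hI
    have := Fintype.ofFinite I
    have key : ∀ F : Finset I, ∃ q ≤ p, ∀ i ∈ F, q ∈ D i := by
      intro F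
      induction F using Finset.induction_on with
      | empty => exact ⟨p, le_rfl, by simp⟩
      | insert a F _ ih =>
        obtain ⟨q, hq, hF⟩ := ih
        obtain ⟨r, hr, ha⟩ := hdense a q
        refine ⟨r, hr.trans hq, fun i hi => ?_⟩
        rcases Finset.mem_insert.1 hi with rfl | hi
        · exact ha
        · exact hdown i q (hF i hi) r hr
    obtain ⟨q, hq, h⟩ := key Finset.univ
    exact ⟨q, hq, fun i => h i (Finset.mem_univ i)⟩
  · obtain ⟨q, hq, h⟩ := easton (B := PUnit.{u + 1}) (T := P) h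
      (fun A _ => (Set.subsingleton_of_subsingleton (s := A)).finite.countable) hclosed hI
      (fun i _ t => t ∈ D i) (fun i _ t ht _ _ t' ht' => hdown i t ht t' ht')
      (fun i b t => by
        obtain ⟨q, hq, h⟩ := hdense i t
        exact ⟨b, le_rfl, q, hq, h⟩) p
    refine ⟨q, hq, fun i => ?_⟩
    obtain ⟨_, _, h⟩ := h i PUnit.unit
    exact h

/-- A `κ`-closed forcing notion adds no new functions on sets of size less than `κ`. -/
theorem decide_fun {κ : Cardinal.{u}} (hκ : ℵ₀ ≤ κ)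
    (hclosed : ∀ S : Set P, (∀ s ∈ S, ∀ t ∈ S, s ≤ t ∨ t ≤ s) → #S < κ → S.Nonempty →
      ∃ t, ∀ s ∈ S, t ≤ s)
    {X Y : Type u} (hX : #X < κ) {R : X → Y → Set P} {q : P} (hq : q ∈ IsFun R) :
    ∃ r ≤ q, ∃ h : X → Y, ∀ x, r ∈ meets (R x (h x)) := by
  obtain ⟨r, hr, h⟩ := distrib hκ hclosed hX
    (fun x => {t | (∃ y, t ∈ meets (R x y)) ∨ ∀ t' ≤ t, ¬ t' ≤ q})
    (by
      intro x t ht t' ht'
      rcases ht with ⟨y, hy⟩ | h
      · exact Or.inl ⟨y, down_meets _ _ hy _ ht'⟩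
      · exact Or.inr fun s hs => h s (hs.trans ht'))
    (by
      intro x t
      by_cases h : ∃ t' ≤ t, t' ≤ q
      · obtain ⟨t', h1, h2⟩ := h
        obtain ⟨s, hs, y, hy⟩ := IsFun.total (down_IsFun R q hq t' h2) x
        exact ⟨s, hs.trans h1, Or.inl ⟨y, hy⟩⟩
      · push Not at h
        exact ⟨t, le_rfl, Or.inr h⟩) q
  have h2 : ∀ x, ∃ y, r ∈ meets (R x y) := fun x => (h x).resolve_right fun h3 => h3 r le_rfl hr
  choose g hg using h2
  exact ⟨r, hr, g, hg⟩

end general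

variable {κ : Cardinal.{u}} {Λ : Type u}

theorem le_def {q p : AddForcing κ Λ} :
    q ≤ p ↔ ∀ w ξ b, p.val w ξ = some b → q.val w ξ = some b := Iff.rfl

/-- the domain -/
def supp (f : Λ → κ.ord.ToType → Option Bool) : Set (Λ × κ.ord.ToType) := {e | f e.1 e.2 ≠ none}

/-- the union of two conditions and a further small partial function -/
def glue (hκ : ℵ₀ ≤ κ) (p q : AddForcing κ Λ) (e : Λ → κ.ord.ToType → Option Bool)
    (he : #(supp e) < κ) : AddForcing κ Λ where
  val w ξ := (p.val w ξ).orElse fun _ => (q.val w ξ).orElse fun _ => e w ξ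
  small := by
    refine (mk_le_mk_of_subset (t := supp p.val ∪ (supp q.val ∪ supp e)) ?_).trans_lt
      (union_lt hκ p.small (union_lt hκ q.small he))
    intro z hz
    simp only [mem_union, supp, mem_ofPred_eq] at hz ⊢
    by_cases h1 : p.val z.1 z.2 = none
    · by_cases h2 : q.val z.1 z.2 = none
      · right; right
        simpa [h1, h2] using hz
      · exact Or.inr (Or.inl h2)
    · exact Or.inl h1

theorem glue_le_left (hκ : ℵ₀ ≤ κ) (p q : AddForcing κ Λ) (e : Λ → κ.ord.ToType → Option Bool)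
    (he : #(supp e) < κ) : glue hκ p q e he ≤ p := by
  intro w ξ b hb
  simp [glue, hb]

theorem glue_le_right (hκ : ℵ₀ ≤ κ) (p q : AddForcing κ Λ) (e : Λ → κ.ord.ToType → Option Bool)
    (he : #(supp e) < κ)
    (h : ∀ w ξ, p.val w ξ ≠ none → q.val w ξ ≠ none → p.val w ξ = q.val w ξ) :
    glue hκ p q e he ≤ q := by
  intro w ξ b hb
  by_cases h1 : p.val w ξ = none
  · simp [glue, hb, h1]
  · have h2 := h w ξ h1 (by rw [hb]; simp)
    simp [glue, h2, hb]

theorem supp_none : #(supp (Λ := Λ) (κ := κ) fun _ _ => none) ≤ 0 := by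
  have : supp (Λ := Λ) (κ := κ) (fun _ _ => none) = ∅ := by
    ext e; simp [supp]
  rw [this]; simp

/-- chains of size less than `κ` have lower bounds -/
theorem closed (hκ : κ.IsRegular) (S : Set (AddForcing κ Λ))
    (hS : ∀ s ∈ S, ∀ t ∈ S, s ≤ t ∨ t ≤ s) (hS' : #S < κ) (_ : S.Nonempty) :
    ∃ t, ∀ s ∈ S, t ≤ s := by
  classical
  let v : Λ → κ.ord.ToType → Option Bool := fun w ξ =>
    if h : ∃ s ∈ S, s.val w ξ ≠ none then h.choose.val w ξ else none
  have hv : ∀ s ∈ S, ∀ w ξ b, s.val w ξ = some b → v w ξ = some b := by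
    intro s hs w ξ b hb
    have h : ∃ s ∈ S, s.val w ξ ≠ none := ⟨s, hs, by rw [hb]; simp⟩
    simp only [v, dif_pos h]
    obtain ⟨h1, h2⟩ := h.choose_spec
    obtain ⟨b', hb'⟩ := Option.ne_none_iff_exists'.1 h2
    rcases hS s hs _ h1 with h3 | h3
    · have := h3 w ξ b' hb'
      rw [hb'] 
      rw [hb] at this
      exact this.symm
    · exact h3 w ξ b hb
  refine ⟨⟨v, ?_⟩, fun s hs w ξ b hb => hv s hs w ξ b hb⟩
  refine (mk_le_mk_of_subset (t := ⋃ s ∈ S, supp s.val) ?_).trans_lt ?_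
  · intro e he
    simp only [mem_ofPred_eq, v] at he
    split_ifs at he with h
    · obtain ⟨s, hs, h⟩ := h
      simp only [mem_iUnion, exists_prop]
      exact ⟨s, hs, h⟩
    · exact absurd rfl he
  · exact (card_biUnion_lt_iff_forall_of_isRegular hκ hS').2 fun s _ => s.small

theorem exists_compat (hκ : κ.IsRegular) (hpow : ∀ μ < κ, 2 ^ μ ≤ κ) {Y : Type u} (hY : κ < #Y)
    (f : Y → AddForcing κ Λ) : ∃ y y', y ≠ y' ∧ ∃ s, s ≤ f y ∧ s ≤ f y' := by
  obtain ⟨y, y', hne, h⟩ := exists_pair' (W := Λ × κ.ord.ToType) (B := Option (ULift Bool)) hκ hpow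
    (by
      refine le_trans ?_ hκ.aleph0_le
      exact mk_le_aleph0) hY (fun y => supp (f y).val)
    (fun y => (f y).small) (fun y e => ((f y).val e.1 e.2).map ULift.up)
  refine ⟨y, y', hne, glue hκ.aleph0_le (f y) (f y') (fun _ _ => none)
    (supp_none.trans_lt (aleph0_pos.trans_le hκ.aleph0_le)), glue_le_left _ _ _ _ _,
    glue_le_right _ _ _ _ _ fun w ξ h1 h2 => ?_⟩
  have := h (w, ξ) h1 h2
  exact Option.map_injective ULift.up_injective this

/-- the pigeonhole principle and the chain condition -/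
theorem exists_compat_same (hκ : κ.IsRegular) (hpow : ∀ μ < κ, 2 ^ μ ≤ κ) {Y Z : Type u}
    (h : #Z * κ < #Y) (f : Y → AddForcing κ Λ) (z : Y → Z) :
    ∃ y y', y ≠ y' ∧ z y = z y' ∧ ∃ s, s ≤ f y ∧ s ≤ f y' := by
  have h1 : ∃ c, κ < #{y // z y = c} := by
    by_contra hcon
    push Not at hcon
    have h2 : #Y = Cardinal.sum fun c => #{x // z x = c} := by
      rw [← mk_sigma]
      exact (Equiv.sigmaFiberEquiv z).symm.cardinal_eq
    have h3 : #Y ≤ #Z * κ := by
      rw [h2]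
      refine (Cardinal.sum_le_sum _ (fun _ => κ) fun c => hcon c).trans ?_
      rw [Cardinal.sum_const']
    exact absurd h3 (not_le.2 h)
  obtain ⟨c, hc⟩ := h1
  obtain ⟨y, y', hne, hcomp⟩ := exists_compat hκ hpow hc fun y => f y.1
  exact ⟨y.1, y'.1, fun h => hne (Subtype.ext h), y.2.trans y'.2.symm, hcomp⟩

theorem cardinalsPreserved (hκ : κ.IsRegular) (hpow : ∀ μ < κ, 2 ^ μ ≤ κ) (p : AddForcing κ Λ) :
    p ∈ CardinalsPreserved.{u, u} (AddForcing κ Λ) := by
  intro μ ν hμν hν q _ hq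
  obtain ⟨r, _, R, hR1, hR2⟩ := mem_fex.1 hq q le_rfl
  rcases lt_or_ge κ ν with hκν | hκν
  · have h1 : ∀ y : ν.out, ∃ s ≤ r, ∃ x : μ.out, s ∈ meets (R x y) := fun y =>
      mem_fex.1 (hR2 y) r le_rfl
    choose f hf x hx using h1
    obtain ⟨y, y', hne, hz, s, hs1, hs2⟩ := exists_compat_same hκ hpow (Y := ν.out) (Z := μ.out)
      (by
        rw [mk_out, mk_out]
        exact mul_lt_of_lt hν.le hμν hκν) f x
    apply hne
    refine IsFun.unique (down_IsFun R r hR1 s (hs1.trans (hf y))) (down_meets _ _ (hx y) s hs1) ?_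
    rw [hz]
    exact down_meets _ _ (hx y') s hs2
  · obtain ⟨s, hs, h, hh⟩ := decide_fun hκ.aleph0_le (closed hκ) (by
      rw [mk_out]; exact hμν.trans_le hκν) hR1
    have hsurj : Function.Surjective h := by
      intro y
      obtain ⟨t, ht, x, hx⟩ := mem_fex.1 (hR2 y) s hs
      exact ⟨x, IsFun.unique (down_IsFun R r hR1 t (ht.trans hs)) (down_meets _ _ (hh x) t ht) hx⟩
    have := mk_le_of_surjective hsurj
    rw [mk_out, mk_out] at this
    exact absurd hμν (not_lt.2 this)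

theorem staysRegular (hκ : κ.IsRegular) (p : AddForcing κ Λ) :
    p ∈ StaysRegular (AddForcing κ Λ) κ := by
  intro ν hν R
  refine mem_fimp.2 fun q _ hR => ?_
  obtain ⟨s, hs, h, hh⟩ := decide_fun hκ.aleph0_le (closed hκ) (by
    rw [mk_out]; exact hν) hR
  obtain ⟨b, hb⟩ := exists_bound (c := κ) (s := range h) (by
    rw [hκ.cof_ord]
    exact mk_range_le.trans_lt (by rw [mk_out]; exact hν))
  refine ⟨s, hs, mem_fex_of_mem b (down_fall fun _ => down_fall fun _ => down_fimp _ _) ?_⟩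
  intro x y
  refine mem_fimp.2 fun t ht hy => ⟨t, le_rfl, ?_⟩
  have : h x = y := IsFun.unique (down_IsFun R q hR t (ht.trans hs))
    (down_meets _ _ (hh x) t ht) hy
  show y < b
  rw [← this]
  exact hb _ ⟨x, rfl⟩

end Pool.Agent.W905.SM
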