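import Mathlib
import Pool.Agent.W905.SM.Forc

set_option autoImplicit false

/-!
# A set mapping without free sets in the Cohen extension
-/

universe u v w

namespace Pool.Agent.W905.SM

open Cardinal Set Pool.Agent.Helper669.Forcing Pool.Agent.Helper669.Forcing2

variable {κ : Cardinal.{u}} {Λ : Type u}

/-! ### Injective named functions -/

/-- no named injection from a large set into a small ground model set -/
theorem not_sizeGe (hκ : κ.IsRegular) (hpow : ∀ μ < κ, 2 ^ μ ≤ κ) {X Y : Type u} {S : Set X}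
    (hS : #S * κ < #Y) {φ : X → Set (AddForcing κ Λ)} {p : AddForcing κ Λ}
    (hφ : ∀ q ≤ p, ∀ x, q ∈ φ x → x ∈ S) : p ∈ SizeLt φ Y := by
  intro q hq hge
  obtain ⟨r, hr, R, hR1, hR2, hR3⟩ := mem_fex.1 hge q le_rfl
  have h1 : ∀ y : Y, ∃ s ≤ r, ∃ x : S, s ∈ meets (R y x) := by
    intro y
    obtain ⟨s, hs, x, hx⟩ := IsFun.total hR1 y
    obtain ⟨t, ht, h⟩ := mem_fimp.1 (hR3 y x) s hs hx
    exact ⟨t, ht.trans hs, ⟨x, hφ t (ht.trans (hs.trans (hr.trans hq))) x h⟩,
      down_meets _ _ hx t ht⟩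
  choose f hf x hx using h1
  obtain ⟨y, y', hne, hz, s, hs1, hs2⟩ := exists_compat_same hκ hpow hS f x
  apply hne
  refine IsInj.eq (down_IsInj R r hR2 s (hs1.trans (hf y))) (down_meets _ _ (hx y) s hs1) ?_
  rw [hz]
  exact down_meets _ _ (hx y') s hs2

/-- a set of size at least `2` in the extension -/
theorem exists_two {P : Type u} [Preorder P] {X : Type v} {Y : Type w} (hY : Nontrivial Y)
    {A : X → Set P} {p : P}
    (h : p ∈ SizeIs (fun x => meets (A x)) Y) : ∃ q ≤ p, ∃ x x', x ≠ x' ∧ q ∈ meets (A x) ∧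
      q ∈ meets (A x') := by
  obtain ⟨r, hr, R, hR1, hR2, hR3, _⟩ := mem_fex.1 h p le_rfl
  obtain ⟨y, y', hne⟩ := hY.exists_pair_ne
  obtain ⟨s, hs, x, hx⟩ := IsFun.total hR1 y
  obtain ⟨t, ht, hxA⟩ := mem_fimp.1 (hR3 y x) s hs hx
  obtain ⟨s', hs', x', hx'⟩ := IsFun.total (down_IsFun R r hR1 t (ht.trans hs)) y'
  obtain ⟨t', ht', hxA'⟩ := mem_fimp.1 (hR3 y' x') s' (hs'.trans (ht.trans hs)) hx'
  refine ⟨t', ht'.trans (hs'.trans (ht.trans (hs.trans hr))), x, x', fun he => ?_,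
    down_meets _ _ hxA _ (ht'.trans hs'), hxA'⟩
  subst he
  exact hne (IsInj.eq (down_IsInj R r hR2 t' (ht'.trans (hs'.trans (ht.trans hs))))
    (down_meets _ _ hx _ (ht'.trans (hs'.trans ht))) (down_meets _ _ hx' _ ht'))

theorem sizeGe_of_sizeIs {P : Type u} [Preorder P] {X : Type v} {Y : Type w} {φ : X → Set P}
    {p : P} (h : p ∈ SizeIs φ Y) : p ∈ SizeGe φ Y := by
  refine mem_fex.2 fun q hq => ?_
  obtain ⟨r, hr, R, hR1, hR2, hR3, _⟩ := mem_fex.1 h q hq
  exact ⟨r, hr, R, hR1, hR2, hR3⟩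

/-! ### The ground model function `c` -/

/-- There is a function `c` on the pairs of elements of `λ⁺`, with values below `cf λ`, such that
for all `x` and `i`, fewer than `λ` elements `y` below `x` satisfy `c y x ≤ i`. -/
theorem exists_local {lam : Cardinal.{u}} (hlam : lam.IsSingular) :
    ∃ c : (Order.succ lam).ord.ToType → (Order.succ lam).ord.ToType → lam.ord.cof.ord.ToType,
      ∀ x i, #{y | y < x ∧ c y x ≤ i} < lam := by
  classical
  -- a cofinal map
  obtain ⟨S, hS, hS'⟩ := Order.exists_cof_eq lam.ord.ToType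
  rw [Ordinal.cof_toType] at hS'
  have h1 : #S = Cardinal.mk lam.ord.cof.ord.ToType := by rw [hS', mk_ord_toType]
  obtain ⟨e⟩ := Cardinal.eq.1 h1
  have h2 : ∀ x : (Order.succ lam).ord.ToType, ∃ g : Iio x → lam.ord.ToType,
      Function.Injective g := by
    intro x
    have h3 : #(Iio x) ≤ Cardinal.mk lam.ord.ToType := by
      rw [mk_ord_toType]
      exact Order.lt_succ_iff.1 (mk_Iio_lt' x)
    obtain ⟨g⟩ := h3
    exact ⟨g, g.injective⟩
  choose g hg using h2
  have h4 : ∀ a : lam.ord.ToType, ∃ i, a ≤ (e.symm i).1 := by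
    intro a
    obtain ⟨b, hb, hab⟩ := hS a
    exact ⟨e ⟨b, hb⟩, by simpa using hab⟩
  choose k hk using h4
  have hne : Nonempty lam.ord.cof.ord.ToType := by
    have h0 : Cardinal.mk lam.ord.ToType ≠ 0 := by
      rw [mk_ord_toType]
      exact (aleph0_pos.trans_le hlam.aleph0_le).ne'
    obtain ⟨a⟩ := mk_ne_zero_iff.1 h0
    exact ⟨k a⟩
  refine ⟨fun y x => if h : y < x then k (g x ⟨y, h⟩) else Classical.arbitrary _, fun x i => ?_⟩
  -- the values below `i` are bounded
  have h5 : #((fun j => (e.symm j).1) '' Iic i) < lam.ord.cof := by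
    refine mk_image_le.trans_lt ?_
    have h6 : (Iic i) = Iio i ∪ {i} := by
      ext j; simp [le_iff_lt_or_eq, or_comm]
    have h0 : ℵ₀ ≤ lam.ord.cof := (isRegular_cof (isSuccLimit_ord hlam.aleph0_le)).aleph0_le
    rw [h6]
    exact union_lt h0 (mk_Iio_lt' i) (finite_lt h0 (finite_singleton _))
  obtain ⟨b, hb⟩ := exists_bound h5
  have h6 : {y | y < x ∧ (if h : y < x then k (g x ⟨y, h⟩) else Classical.arbitrary _) ≤ i} ⊆
      Subtype.val '' ((g x) ⁻¹' Iio b) := by
    rintro y ⟨hy, h⟩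
    rw [dif_pos hy] at h
    refine ⟨⟨y, hy⟩, ?_, rfl⟩
    show g x ⟨y, hy⟩ < b
    exact (hk _).trans_lt (hb _ ⟨_, h, rfl⟩)
  refine (mk_le_mk_of_subset h6).trans_lt (mk_image_le.trans_lt ?_)
  refine (mk_preimage_of_injective _ _ (hg x)).trans_lt ?_
  exact mk_Iio_lt' b

/-! ### The set mapping -/

section

variable {X : Type u} [LinearOrder X] (c : X → X → κ.ord.ToType) (j : X → Λ)

/-- The name of the set mapping: `y ∈ f x` if `y < x` and the generic subsets of `κ` with the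
indices `x` and `y` agree below `c y x`. -/
def fname (x y : X) : Set (AddForcing κ Λ) :=
  {p | y < x ∧ ∀ ξ < c y x, ∃ b, p.val (j x) ξ = some b ∧ p.val (j y) ξ = some b}

theorem fname_down (x y : X) : Down (fname (κ := κ) c j x y) := by
  intro p hp q hq
  refine ⟨hp.1, fun ξ hξ => ?_⟩
  obtain ⟨b, h1, h2⟩ := hp.2 ξ hξ
  exact ⟨b, hq _ _ _ h1, hq _ _ _ h2⟩

theorem lt_of_meets {x y : X} {p : AddForcing κ Λ} (h : p ∈ meets (fname c j x y)) : y < x := by
  obtain ⟨q, _, hq⟩ := exists_of_meets (fname_down c j x y) h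
  exact hq.1

theorem no_value {w : Λ} (hκ : κ.IsRegular) (p : AddForcing κ Λ) (w' : Λ) :
    ∃ ξ, p.val w ξ = none ∧ p.val w' ξ = none := by
  have h : #(Prod.snd '' supp p.val : Set κ.ord.ToType) < κ := mk_image_le.trans_lt p.small
  obtain ⟨b, hb⟩ := exists_bound (c := κ) (s := Prod.snd '' supp p.val) (by rwa [hκ.cof_ord])
  refine ⟨b, ?_, ?_⟩
  · by_contra hne
    exact absurd (hb b ⟨(w, b), hne, rfl⟩) (lt_irrefl b)
  · by_contra hne
    exact absurd (hb b ⟨(w', b), hne, rfl⟩) (lt_irrefl b)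

/-- Two values of the set mapping are almost disjoint. -/
theorem sizeLt_inter (hκ : κ.IsRegular) (hpow : ∀ μ < κ, 2 ^ μ ≤ κ) {lam : Cardinal.{u}}
    (hlam : κ < lam) (hj : Function.Injective j)
    (hc : ∀ x i, #{y | y < x ∧ c y x ≤ i} < lam) {x x' : X} (hne : x ≠ x') {Y : Type u}
    (hY : #Y = lam)
    (p : AddForcing κ Λ) :
    p ∈ SizeLt (fun y => fand (meets (fname c j x y)) (meets (fname c j x' y))) Y := by
  classical
  intro q _ hge
  obtain ⟨ξ, hξ1, hξ2⟩ := no_value (w := j x) hκ q (j x')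
  have hjne : j x ≠ j x' := fun h => hne (hj h)
  let e : Λ → κ.ord.ToType → Option Bool := fun w ζ =>
    if ζ = ξ then (if w = j x then some true else if w = j x' then some false else none) else none
  have he : #(supp e) < κ := by
    refine finite_lt hκ.aleph0_le (Set.Finite.subset (s := {(j x, ξ), (j x', ξ)}) (by simp) ?_)
    rintro ⟨w, ζ⟩ hz
    simp only [supp, mem_ofPred_eq, e] at hz
    split_ifs at hz with h1 h2 h3
    · left; rw [h1, h2]
    · right; rw [h1, h3]; rfl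
    · exact absurd rfl hz
    · exact absurd rfl hz
  set q' := glue hκ.aleph0_le q q e he with hq'
  have hle : q' ≤ q := glue_le_left _ _ _ _ _
  have hv1 : q'.val (j x) ξ = some true := by simp [hq', glue, hξ1, e]
  have hv2 : q'.val (j x') ξ = some false := by simp [hq', glue, hξ2, e, hjne.symm]
  let B : Set X := {y | y < x ∧ c y x ≤ ξ} ∪ {y | y < x' ∧ c y x' ≤ ξ}
  have hB : #B < lam := union_lt (hκ.aleph0_le.trans hlam.le) (hc x ξ) (hc x' ξ)
  refine not_sizeGe (S := B) (X := X) hκ hpow (by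
    rw [hY]
    exact mul_lt_of_lt (hκ.aleph0_le.trans hlam.le) hB hlam) (p := q')
    (φ := fun y => fand (meets (fname c j x y)) (meets (fname c j x' y))) ?_ q' le_rfl
    (down_fex _ _ hge q' hle)
  rintro r hr y ⟨h1, h2⟩
  by_contra hy
  simp only [B, mem_union, mem_ofPred_eq, not_or, not_and, not_le] at hy
  have hlt1 := lt_of_meets c j h1
  have hlt2 := lt_of_meets c j h2
  obtain ⟨s, hs, hs1⟩ := exists_of_meets (fname_down c j x y) h1
  obtain ⟨t, ht, ht1⟩ := exists_of_meets (fname_down c j x' y) (down_meets _ _ h2 s hs)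
  obtain ⟨b, hb1, hb2⟩ := (fname_down c j x y s hs1 t ht).2 ξ (hy.1 hlt1)
  obtain ⟨b', hb1', hb2'⟩ := ht1.2 ξ (hy.2 hlt2)
  have htq : t ≤ q' := ht.trans (hs.trans hr)
  have e1 := htq _ _ _ hv1
  have e2 := htq _ _ _ hv2
  rw [hb1] at e1
  rw [hb1'] at e2
  rw [hb2] at hb2'
  simp only [Option.some.injEq] at e1 e2 hb2'
  subst e1
  subst e2
  exact Bool.noConfusion hb2'

/-- There is no free set of size `κ⁺`. -/
theorem no_free (hκ : κ.IsRegular) (hpow : ∀ μ < κ, 2 ^ μ ≤ κ) (hj : Function.Injective j)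
    {Y : Type u} (hY : κ < #Y) (H : X → Set (AddForcing κ Λ)) (p : AddForcing κ Λ)
    (hH : p ∈ Free (fname c j) H) : p ∈ SizeLt (fun x => meets (H x)) Y := by
  classical
  intro q hq hge
  obtain ⟨r, hr, R, hR1, hR2, hR3⟩ := mem_fex.1 hge q le_rfl
  have h1 : ∀ a : Y, ∃ s ≤ r, ∃ x : X, s ∈ meets (R a x) ∧ s ∈ meets (H x) := by
    intro y
    obtain ⟨s, hs, x, hx⟩ := IsFun.total hR1 y
    obtain ⟨t, ht, h⟩ := mem_fimp.1 (hR3 y x) s hs hx
    exact ⟨t, ht.trans hs, x, down_meets _ _ hx t ht, h⟩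
  choose f hf x hx hxH using h1
  -- two compatible conditions give different values
  have hinj : ∀ a b, a ≠ b → ∀ s, s ≤ f a → s ≤ f b → x a ≠ x b := by
    intro a b hab s h1 h2 he
    apply hab
    refine IsInj.eq (down_IsInj R r hR2 s (h1.trans (hf a))) (down_meets _ _ (hx a) s h1) ?_
    rw [he]
    exact down_meets _ _ (hx b) s h2
  have hcol : ∀ (p : AddForcing κ Λ) (w : Λ),
      #{e : κ.ord.ToType × Bool | p.val w e.1 = some e.2} < κ := by
    intro p w
    refine lt_of_le_of_lt ?_ p.small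
    refine mk_le_of_injective (f := fun e => ⟨(w, e.1.1), by
      have := e.2
      simp only [mem_ofPred_eq] at this ⊢
      rw [this]; simp⟩) ?_
    rintro ⟨⟨ζ, b⟩, h⟩ ⟨⟨ζ', b'⟩, h'⟩ he
    simp only [Subtype.mk.injEq, Prod.mk.injEq, true_and] at he
    subst he
    simp only [mem_ofPred_eq] at h h'
    rw [h] at h'
    simp only [Option.some.injEq] at h'
    subst h'
    rfl
  let Col : Type u := {G : Set (κ.ord.ToType × Bool) // #G < κ}
  have hCol : #Col ≤ κ := by
    refine count hκ hpow ?_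
    rw [mk_prod, mk_ord_toType]
    rw [Cardinal.lift_uzero]
    refine mul_le' hκ.aleph0_le ?_ ?_
    · simp
    · refine le_trans ?_ hκ.aleph0_le
      exact (by simp : Cardinal.lift.{u, 0} #Bool ≤ ℵ₀)
  let col : AddForcing κ Λ → Λ → Col := fun p w => ⟨_, hcol p w⟩
  have hcolv : ∀ p p' w w', col p w = col p' w' → ∀ ξ, p.val w ξ = p'.val w' ξ := by
    intro p p' w w' h ξ
    have h2 : ∀ b, p.val w ξ = some b ↔ p'.val w' ξ = some b := by
      intro b
      have h3 := congrArg Subtype.val h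
      have h4 := Set.ext_iff.1 h3 (ξ, b)
      exact h4
    cases hp : p.val w ξ with
    | none =>
      cases hp' : p'.val w' ξ with
      | none => rfl
      | some b => rw [(h2 b).2 hp'] at hp; exact absurd hp (by simp)
    | some b => exact ((h2 b).1 hp).symm
  obtain ⟨a, b, hab, hz, hs, ha, hb⟩ := exists_pair (κ := κ) (K := Y) (W := Λ) (B := Col) (Z := Col)
    hκ hpow hCol hCol hY
    (fun a => {w | ∃ ξ, (f a).val w ξ ≠ none} ∪ {j (x a)})
    (fun a => by
      refine union_lt hκ.aleph0_le ?_ (finite_lt hκ.aleph0_le (finite_singleton _))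
      refine lt_of_le_of_lt (mk_le_mk_of_subset (t := Prod.fst '' supp (f a).val) ?_)
        (mk_image_le.trans_lt (f a).small)
      rintro w ⟨ξ, hξ⟩
      exact ⟨(w, ξ), hξ, rfl⟩)
    (fun a w => col (f a) w) (fun a => col (f a) (j (x a))) (fun a => j (x a))
    (fun a => Or.inr rfl)
    (by
      intro w
      by_contra hlt
      push Not at hlt
      obtain ⟨⟨a, ha⟩, ⟨b, hb⟩, hne, s, hs1, hs2⟩ := exists_compat hκ hpow hlt
        (fun a : {a | j (x a) = w} => f a.1)
      refine hinj a b (fun h => hne (Subtype.ext h)) s hs1 hs2 (hj ?_)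
      exact ha.trans hb.symm)
  have hagree : ∀ w ξ, (f a).val w ξ ≠ none → (f b).val w ξ ≠ none →
      (f a).val w ξ = (f b).val w ξ := by
    intro w ξ h1 h2
    exact hcolv _ _ _ _ (hs w (Or.inl ⟨ξ, h1⟩) (Or.inl ⟨ξ, h2⟩)) ξ
  have hxa : ∀ ξ, (f b).val (j (x a)) ξ = none := by
    intro ξ
    by_contra h
    exact ha (Or.inl ⟨ξ, h⟩)
  have hxb : ∀ ξ, (f a).val (j (x b)) ξ = none := by
    intro ξ
    by_contra h
    exact hb (Or.inl ⟨ξ, h⟩)
  have hsame : ∀ ξ, (f a).val (j (x a)) ξ = (f b).val (j (x b)) ξ := hcolv _ _ _ _ hz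
  have hjne : j (x a) ≠ j (x b) := fun h => ha (Or.inr h)
  have hxne : x a ≠ x b := fun h => hjne (by rw [h])
  -- the extension which makes the columns agree below `γ`
  have key : ∀ γ : κ.ord.ToType, ∃ s, s ≤ f a ∧ s ≤ f b ∧ ∀ ξ < γ, ∃ v,
      s.val (j (x a)) ξ = some v ∧ s.val (j (x b)) ξ = some v := by
    intro γ
    let e : Λ → κ.ord.ToType → Option Bool := fun w ζ =>
      if (w = j (x a) ∨ w = j (x b)) ∧ ζ < γ then some true else none
    have he : #(supp e) < κ := by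
      refine lt_of_le_of_lt (mk_le_mk_of_subset
        (t := (fun ζ => (j (x a), ζ)) '' Iio γ ∪ (fun ζ => (j (x b), ζ)) '' Iio γ) ?_)
        (union_lt hκ.aleph0_le (mk_image_le.trans_lt (mk_Iio_lt' γ))
          (mk_image_le.trans_lt (mk_Iio_lt' γ)))
      rintro ⟨w, ζ⟩ hz
      simp only [supp, mem_ofPred_eq, e] at hz
      split_ifs at hz with h
      · obtain ⟨h1 | h1, h2⟩ := h
        · left; exact ⟨ζ, h2, by rw [h1]⟩
        · right; exact ⟨ζ, h2, by rw [h1]⟩
      · exact absurd rfl hz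
    refine ⟨glue hκ.aleph0_le (f a) (f b) e he, glue_le_left _ _ _ _ _,
      glue_le_right _ _ _ _ _ hagree, fun ξ hξ => ?_⟩
    cases hv : (f a).val (j (x a)) ξ with
    | some v =>
      refine ⟨v, by simp [glue, hv], ?_⟩
      have h2 := hsame ξ
      rw [hv] at h2
      simp [glue, hxb ξ, ← h2]
    | none =>
      refine ⟨true, by simp [glue, hv, hxa ξ, e, hξ], ?_⟩
      have h2 := hsame ξ
      rw [hv] at h2
      simp [glue, hxb ξ, ← h2, e, hξ]
  rcases lt_or_gt_of_ne hxne with hlt | hlt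
  · obtain ⟨s, hs1, hs2, hs3⟩ := key (c (x a) (x b))
    have hsp : s ≤ p := hs1.trans ((hf a).trans (hr.trans hq))
    obtain ⟨t, ht, h⟩ := mem_fimp.1 (hH (x b) (x a) hxne.symm) s hsp
      ⟨down_meets _ _ (hxH b) s hs2, down_meets _ _ (hxH a) s hs1⟩
    refine h t le_rfl (meets_of_mem (fname_down c j _ _ s ⟨hlt, fun ξ hξ => ?_⟩ t ht))
    obtain ⟨v, h1, h2⟩ := hs3 ξ hξ
    exact ⟨v, h2, h1⟩
  · obtain ⟨s, hs1, hs2, hs3⟩ := key (c (x b) (x a))
    have hsp : s ≤ p := hs1.trans ((hf a).trans (hr.trans hq))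
    obtain ⟨t, ht, h⟩ := mem_fimp.1 (hH (x a) (x b) hxne) s hsp
      ⟨down_meets _ _ (hxH a) s hs1, down_meets _ _ (hxH b) s hs2⟩
    exact h t le_rfl (meets_of_mem (fname_down c j _ _ s ⟨hlt, hs3⟩ t ht))

end

end Pool.Agent.W905.SM
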